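import Pool.Agent.Q35.EO.Stm

/-! # Project EO (helper35), job EO-HT: from boxes to heights with the exact power of the logarithm -/

set_option autoImplicit false

namespace Pool.Agent.Q38.EO

open Finset Function
open Pool.Agent.Q35.MM Pool.Agent.Q35.EO

theorem geo_le {v Y : ℝ} (hv : 1 < v) (hY : 0 ≤ Y) (S : Finset ℕ) (hS : ∀ j ∈ S, v ^ j ≤ Y) :
    ∑ j ∈ S, v ^ j ≤ Y * (v / (v - 1)) := by
  have hv1 : 0 < v - 1 := by linarith
  have hv0 : 0 < v := by linarith
  have hvv : 0 ≤ v / (v - 1) := (div_pos hv0 hv1).le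
  rcases S.eq_empty_or_nonempty with rfl | hne
  · simp only [sum_empty]
    exact mul_nonneg hY hvv
  · obtain ⟨m, hm, hmax⟩ := S.exists_max_image id hne
    have hsub : S ⊆ range (m + 1) := fun j hj => mem_range.mpr (Nat.lt_succ_of_le (hmax j hj))
    calc ∑ j ∈ S, v ^ j ≤ ∑ j ∈ range (m + 1), v ^ j :=
          sum_le_sum_of_subset_of_nonneg hsub (fun j _ _ => pow_nonneg hv0.le _)
      _ = (v ^ (m + 1) - 1) / (v - 1) := geom_sum_eq hv.ne' _
      _ ≤ v ^ (m + 1) / (v - 1) := by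
          rw [div_le_div_iff_of_pos_right hv1]
          linarith
      _ = v ^ m * (v / (v - 1)) := by rw [pow_succ, mul_div_assoc]
      _ ≤ Y * (v / (v - 1)) := mul_le_mul_of_nonneg_right (hS m hm) hvv

theorem geo_lt {r : ℝ} (h0 : 0 ≤ r) (h1 : r < 1) (M : ℕ) : ∑ j ∈ range M, r ^ j ≤ (1 - r)⁻¹ := by
  have h2 : 0 < 1 - r := by linarith
  rw [geom_sum_eq h1.ne, ← neg_div_neg_eq, neg_sub, neg_sub, inv_eq_one_div,
    div_le_div_iff_of_pos_right h2]
  have := pow_nonneg h0 M
  linarith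

open Classical in
theorem sum_box {ι : Type} [Fintype ι] [DecidableEq ι] (q : ℝ) (hq : 1 < q) (l R : ι → ℝ) (a : ℝ)
    (hl : ∀ i, 0 < l i) (ha : 0 < a) (hR : ∀ i, R i ≤ a * l i) (J : Finset ι)
    (hJ : ∀ i, i ∈ J ↔ R i = a * l i) (i0 : ι) (hi0 : i0 ∈ J) :
    ∃ C : ℝ, 0 ≤ C ∧ ∀ T : ℝ, 1 ≤ T → ∀ E : Finset (ι → ℕ),
      (∀ e ∈ E, q ^ (∑ i, l i * (e i : ℝ)) ≤ T) →
      ∑ e ∈ E, q ^ (∑ i, R i * (e i : ℝ)) ≤ C * T ^ a * (1 + Real.log T) ^ (J.card - 1) := by
  have hq0 : 0 < q := by linarith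
  have hlq : 0 < Real.log q := Real.log_pos hq
  set v : ℝ := q ^ (a * l i0) with hv
  have hv1 : 1 < v := Real.one_lt_rpow hq (mul_pos ha (hl i0))
  have hvm : 0 < v - 1 := by linarith
  have hvv : 0 ≤ v / (v - 1) := (div_pos (by linarith) hvm).le
  set cc : ι → ℝ := fun i => if i = i0 then 1 else if i ∈ J then 1 + 1 / (l i * Real.log q)
    else (1 - q ^ (-(a * l i - R i)))⁻¹ with hcc
  have hr1 : ∀ i, i ∉ J → q ^ (-(a * l i - R i)) < 1 := by
    intro i hi
    refine Real.rpow_lt_one_of_one_lt_of_neg hq ?_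
    have h1 := hR i
    have h2 : R i ≠ a * l i := fun h => hi ((hJ i).2 h)
    have h3 := lt_of_le_of_ne h1 h2
    linarith
  have hcc0 : ∀ i, 0 ≤ cc i := by
    intro i
    simp only [hcc]
    split_ifs with h1 h2
    · exact zero_le_one
    · have := mul_pos (hl i) hlq
      positivity
    · have := hr1 i h2
      exact inv_nonneg.mpr (by linarith)
  refine ⟨v / (v - 1) * ∏ i, cc i, mul_nonneg hvv (prod_nonneg fun i _ => hcc0 i), ?_⟩
  intro T hT E hE
  have hT0 : 0 < T := by linarith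
  have hlT : 0 ≤ Real.log T := Real.log_nonneg hT
  set N : ι → ℕ := fun i => ⌊Real.log T / (l i * Real.log q)⌋₊ with hN
  set F : Finset (ι → ℕ) :=
    Fintype.piFinset fun i => if i = i0 then {0} else range (N i + 1) with hF
  have hmaps : ∀ e ∈ E, update e i0 0 ∈ F := by
    intro e he
    rw [hF, Fintype.mem_piFinset]
    intro i
    by_cases hi : i = i0
    · subst hi
      simp
    · rw [if_neg hi, update_of_ne hi, mem_range, Nat.lt_succ_iff]
      refine Nat.le_floor ?_
      rw [le_div_iff₀ (mul_pos (hl i) hlq)]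
      have h1 : l i * (e i : ℝ) ≤ ∑ i, l i * (e i : ℝ) :=
        single_le_sum (f := fun i => l i * (e i : ℝ))
          (fun j _ => mul_nonneg (hl j).le (Nat.cast_nonneg _)) (mem_univ i)
      have h2 := hE e he
      have h3 := Real.log_le_log (Real.rpow_pos_of_pos hq0 _) h2
      rw [Real.log_rpow hq0] at h3
      have h4 := mul_le_mul_of_nonneg_right h1 hlq.le
      nlinarith
  -- one fibre
  have hfib : ∀ f ∈ F, ∑ e ∈ E.filter (fun e => update e i0 0 = f), q ^ (∑ i, R i * (e i : ℝ)) ≤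
      T ^ a * (v / (v - 1)) * ∏ i, (if i = i0 then 1 else (q ^ (-(a * l i - R i))) ^ f i) := by
    intro f hf
    have hef : ∀ e ∈ E.filter (fun e => update e i0 0 = f), ∀ i, i ≠ i0 → e i = f i := by
      intro e he i hi
      rw [mem_filter] at he
      rw [← he.2, update_of_ne hi]
    have hsplit : ∀ (w : ι → ℝ), ∀ e ∈ E.filter (fun e => update e i0 0 = f),
        ∑ i, w i * (e i : ℝ) = w i0 * e i0 + ∑ i ∈ univ.erase i0, w i * (f i : ℝ) := by
      intro w e he
      rw [← add_sum_erase univ _ (mem_univ i0)]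
      congr 1
      refine sum_congr rfl fun i hi => ?_
      rw [hef e he i (ne_of_mem_erase hi)]
    have h1 : ∀ e ∈ E.filter (fun e => update e i0 0 = f), q ^ (∑ i, R i * (e i : ℝ)) =
        v ^ (e i0) * q ^ (∑ i ∈ univ.erase i0, R i * (f i : ℝ)) := by
      intro e he
      rw [hsplit R e he, Real.rpow_add hq0, (hJ i0).1 hi0, Real.rpow_mul hq0.le, Real.rpow_natCast]
    rw [sum_congr rfl h1, ← sum_mul]
    have hinj : Set.InjOn (fun e : ι → ℕ => e i0)
        (E.filter (fun e => update e i0 0 = f) : Finset (ι → ℕ)) := by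
      intro e he e' he' h
      funext i
      by_cases hi : i = i0
      · subst hi
        exact h
      · rw [hef e (mem_coe.mp he) i hi, hef e' (mem_coe.mp he') i hi]
    have h2 : ∑ e ∈ E.filter (fun e => update e i0 0 = f), v ^ (e i0) =
        ∑ j ∈ (E.filter (fun e => update e i0 0 = f)).image (fun e => e i0), v ^ j :=
      (sum_image hinj).symm
    have h3 : ∑ j ∈ (E.filter (fun e => update e i0 0 = f)).image (fun e => e i0), v ^ j ≤
        (T ^ a * q ^ (-(a * ∑ i ∈ univ.erase i0, l i * (f i : ℝ)))) * (v / (v - 1)) := by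
      refine geo_le hv1 (mul_nonneg (Real.rpow_nonneg hT0.le _) (Real.rpow_nonneg hq0.le _)) _ ?_
      intro j hj
      obtain ⟨e, he, rfl⟩ := mem_image.mp hj
      have h4 := hE e (mem_filter.mp he).1
      rw [hsplit l e he] at h4
      have h5 := Real.rpow_le_rpow (Real.rpow_nonneg hq0.le _) h4 ha.le
      rw [← Real.rpow_mul hq0.le] at h5
      have h6 : v ^ (e i0) = q ^ ((l i0 * (e i0 : ℝ) + ∑ i ∈ univ.erase i0, l i * (f i : ℝ)) * a) *
          q ^ (-(a * ∑ i ∈ univ.erase i0, l i * (f i : ℝ))) := by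
        rw [← Real.rpow_add hq0, hv, ← Real.rpow_natCast, ← Real.rpow_mul hq0.le]
        congr 1
        ring
      rw [h6]
      exact mul_le_mul_of_nonneg_right h5 (Real.rpow_nonneg hq0.le _)
    rw [h2]
    refine (mul_le_mul_of_nonneg_right h3 (Real.rpow_nonneg hq0.le _)).trans (le_of_eq ?_)
    have h7 : ∏ i, (if i = i0 then (1 : ℝ) else (q ^ (-(a * l i - R i))) ^ f i) =
        q ^ (-(a * ∑ i ∈ univ.erase i0, l i * (f i : ℝ))) *
          q ^ (∑ i ∈ univ.erase i0, R i * (f i : ℝ)) := by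
      rw [← mul_prod_erase univ _ (mem_univ i0), if_pos rfl, one_mul, ← Real.rpow_add hq0]
      have h8 : ∀ i ∈ univ.erase i0, (if i = i0 then (1 : ℝ) else (q ^ (-(a * l i - R i))) ^ f i) =
          q ^ (-(a * l i - R i) * (f i : ℝ)) := by
        intro i hi
        rw [if_neg (ne_of_mem_erase hi), Real.rpow_mul hq0.le, Real.rpow_natCast]
      rw [prod_congr rfl h8, ← Real.rpow_sum_of_pos hq0]
      congr 1
      rw [mul_sum, ← sum_neg_distrib, ← sum_add_distrib]
      refine sum_congr rfl fun i _ => ?_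
      ring
    rw [h7]
    ring
  rw [← sum_fiberwise_of_maps_to hmaps]
  refine (sum_le_sum hfib).trans ?_
  rw [← mul_sum]
  have hprod : ∑ f ∈ F, ∏ i, (if i = i0 then (1 : ℝ) else (q ^ (-(a * l i - R i))) ^ f i) =
      ∏ i, ∑ j ∈ (if i = i0 then {0} else range (N i + 1)),
        (if i = i0 then (1 : ℝ) else (q ^ (-(a * l i - R i))) ^ j) := by
    rw [hF, prod_univ_sum]
  rw [hprod]
  have hfac : ∀ i, ∑ j ∈ (if i = i0 then {0} else range (N i + 1)),
        (if i = i0 then (1 : ℝ) else (q ^ (-(a * l i - R i))) ^ j) ≤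
      cc i * (if i ∈ J.erase i0 then (1 + Real.log T) else 1) := by
    intro i
    by_cases hi : i = i0
    · subst hi
      simp [hcc]
    · simp only [if_neg hi, hcc]
      by_cases hiJ : i ∈ J
      · rw [if_pos hiJ, if_pos (mem_erase.mpr ⟨hi, hiJ⟩)]
        have h1 : q ^ (-(a * l i - R i)) = 1 := by
          rw [(hJ i).1 hiJ]
          simp
        rw [h1]
        simp only [one_pow, sum_const, card_range, nsmul_eq_mul, mul_one]
        push_cast
        have h2 : (N i : ℝ) ≤ Real.log T / (l i * Real.log q) :=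
          Nat.floor_le (div_nonneg hlT (mul_pos (hl i) hlq).le)
        have h3 : 0 ≤ 1 / (l i * Real.log q) := by
          have := mul_pos (hl i) hlq
          positivity
        have h4 : Real.log T / (l i * Real.log q) = 1 / (l i * Real.log q) * Real.log T := by
          ring
        nlinarith [mul_nonneg h3 hlT]
      · rw [if_neg hiJ, if_neg (fun h => hiJ (mem_of_mem_erase h)), mul_one]
        exact geo_lt (Real.rpow_nonneg hq0.le _) (hr1 i hiJ) _
  have hfac0 : ∀ i, 0 ≤ ∑ j ∈ (if i = i0 then {0} else range (N i + 1)),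
        (if i = i0 then (1 : ℝ) else (q ^ (-(a * l i - R i))) ^ j) := by
    intro i
    refine sum_nonneg fun j _ => ?_
    split_ifs
    · exact zero_le_one
    · exact pow_nonneg (Real.rpow_nonneg hq0.le _) _
  have hP : ∏ i, ∑ j ∈ (if i = i0 then {0} else range (N i + 1)),
        (if i = i0 then (1 : ℝ) else (q ^ (-(a * l i - R i))) ^ j) ≤
      (∏ i, cc i) * (1 + Real.log T) ^ (J.card - 1) := by
    refine (prod_le_prod (fun i _ => hfac0 i) (fun i _ => hfac i)).trans (le_of_eq ?_)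
    rw [prod_mul_distrib]
    congr 1
    rw [prod_ite_mem, univ_inter, prod_const, card_erase_of_mem hi0]
  calc T ^ a * (v / (v - 1)) * _ ≤ T ^ a * (v / (v - 1)) *
        ((∏ i, cc i) * (1 + Real.log T) ^ (J.card - 1)) :=
        mul_le_mul_of_nonneg_left hP (mul_nonneg (Real.rpow_nonneg hT0.le _) hvv)
    _ = _ := by ring

theorem ht (hMK : Pool.Agent.Q35.MM.S_MK) : Pool.Agent.Q35.EO.S_HT := by
  classical
  intro K _ _ ι _ _ n k U hι hkn hUs hFF l hl
  have hne : Nonempty ι := by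
    rw [← Fintype.card_pos_iff]
    omega
  have hd : 1 ≤ dg K := Module.finrank_pos
  obtain ⟨C, hC, hCb⟩ := hFF
  obtain ⟨c, hc, hMKc⟩ := hMK K
  set a : ℝ := fuj n k l with hadef
  set R : ι → ℝ := fun i => ((n i + 1 - k : ℕ) : ℝ) with hRdef
  have hRe : ∀ i, R i = (n i : ℝ) + 1 - k := by
    intro i
    have h2 : k ≤ n i + 1 := (hkn i).trans (Nat.le_succ _)
    simp only [hRdef]
    rw [Nat.cast_sub h2]
    push_cast
    rfl
  have hR1 : ∀ i, 1 ≤ R i := by
    intro i
    simp only [hRdef]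
    have h2 : 1 ≤ n i + 1 - k := by
      have := hkn i
      omega
    exact_mod_cast h2
  have ha_set : ∀ s : ℝ, (∀ i, 0 ≤ s * l i - ((n i : ℝ) + 1 - k)) ↔ ∀ i, R i ≤ s * l i := by
    intro s
    refine forall_congr' fun i => ?_
    rw [hRe]
    constructor <;> intro h <;> linarith
  obtain ⟨i0, -, hi0⟩ := exists_max_image univ (fun i => R i / l i) univ_nonempty
  have hmem0 : ∀ i, R i ≤ (R i0 / l i0) * l i := by
    intro i
    have h1 : R i / l i ≤ R i0 / l i0 := hi0 i (mem_univ i)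
    rwa [div_le_iff₀ (hl i)] at h1
  have hlow : ∀ s : ℝ, (∀ i, R i ≤ s * l i) → R i0 / l i0 ≤ s := by
    intro s hs
    rw [div_le_iff₀ (hl i0)]
    exact hs i0
  have haeq : a = R i0 / l i0 := by
    rw [hadef]
    unfold fuj
    apply le_antisymm
    · refine csInf_le ⟨R i0 / l i0, ?_⟩ ((ha_set _).2 hmem0)
      intro s hs
      exact hlow s ((ha_set s).1 hs)
    · refine le_csInf ⟨_, (ha_set _).2 hmem0⟩ ?_
      intro s hs
      exact hlow s ((ha_set s).1 hs)
  have ha : ∀ i, R i ≤ a * l i := by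
    intro i
    rw [haeq]
    exact hmem0 i
  have ha0 : 0 < a := by
    rw [haeq]
    have := hR1 i0
    exact div_pos (by linarith) (hl i0)
  set J : Finset ι := univ.filter fun i => R i = a * l i with hJdef
  have hJ : ∀ i, i ∈ J ↔ R i = a * l i := by
    intro i
    simp [hJdef]
  have hi0J : i0 ∈ J := by
    rw [hJ, haeq, div_mul_cancel₀ _ (hl i0).ne']
  have hmlt : mlt n k l = J.card := by
    unfold mlt
    rw [← hadef, ← Set.ncard_coe_finset]
    congr 1
    ext i
    rw [Set.mem_ofPred_eq, mem_coe, hJ, hRe]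
    exact eq_comm
  set q : ℝ := (2 : ℝ) ^ dg K with hq
  have hq1 : 1 < q := one_lt_pow₀ (by norm_num) (by omega)
  have hq0 : 0 < q := by linarith
  obtain ⟨C1, hC1, hbox⟩ := sum_box q hq1 l R a hl ha0 ha J hJ i0 hi0J
  have hc1 : (1 : ℝ) ≤ c := by exact_mod_cast hc
  set Pc : ℝ := 2 * c with hPc
  have hP1 : 1 ≤ Pc := by linarith
  -- dyadic height
  have hex : ∀ (x : Pts K n), ∃ e : ι → ℕ, ∀ i, q ^ e i ≤ (x i).mulHeight ∧
      (x i).mulHeight < q ^ (e i + 1) := by
    intro x
    have h1 : ∀ i, ∃ e : ℕ, q ^ e ≤ (x i).mulHeight ∧ (x i).mulHeight < q ^ (e + 1) := fun i =>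
      exists_nat_pow_near (x i).one_le_mulHeight hq1
    choose e he using h1
    exact ⟨e, he⟩
  choose ex hex1 using hex
  -- representatives
  have hrep : ∀ (x : Pts K n) (i : ι), ∃ t : K, t ≠ 0 ∧
      t • (x i).rep ∈ bx K (n i + 1) (c * 2 ^ (ex x i + 1)) := by
    intro x i
    refine hMKc (n i + 1) (x i).rep (x i).rep_nonzero (2 ^ (ex x i + 1)) Nat.one_le_two_pow ?_
    have h1 : Height.mulHeight (x i).rep = (x i).mulHeight := by
      conv_rhs => rw [← (x i).mk_rep]
      rw [Projectivization.mulHeight_mk]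
    rw [h1]
    refine (hex1 x i).2.le.trans (le_of_eq ?_)
    rw [hq]
    push_cast
    rw [← pow_mul, ← pow_mul, mul_comm]
  choose t ht0 htb using hrep
  set K1 : ℝ := C * ∏ i, Pc ^ (dg K * (n i + 1 - k)) with hK1
  have hK10 : 0 ≤ K1 := mul_nonneg hC (prod_nonneg fun i _ => pow_nonneg (by linarith) _)
  -- one class
  have hclass : ∀ (Z : Finset (Pts K n)), (∀ x ∈ Z, U (fun i => (x i).rep)) → ∀ e : ι → ℕ,
      ((Z.filter (fun x => ex x = e)).card : ℝ) ≤ K1 * q ^ (∑ i, R i * (e i : ℝ)) := by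
    intro Z hZ e
    have hcard : (Z.filter (fun x => ex x = e)).card ≤
        ((Fintype.piFinset fun l => bx K (n l + 1) (c * 2 ^ (e l + 1))).filter
          fun P => U P).card := by
      refine card_le_card_of_injOn (fun x i => t x i • (x i).rep) ?_ ?_
      · intro x hx
        rw [mem_coe, mem_filter] at hx
        rw [mem_coe]
        rw [mem_filter, Fintype.mem_piFinset]
        refine ⟨fun i => ?_, hUs (t x) (ht0 x) _ (hZ x hx.1)⟩
        have := htb x i
        rw [hx.2] at this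
        exact this
      · intro x _ x' _ h
        funext i
        have h1 : t x i • (x i).rep = t x' i • (x' i).rep := congrFun h i
        rw [← (x i).mk_rep, ← (x' i).mk_rep, Projectivization.mk_eq_mk_iff']
        refine ⟨(t x i)⁻¹ * t x' i, ?_⟩
        rw [mul_smul, ← h1, ← mul_smul, inv_mul_cancel₀ (ht0 x i), one_smul]
    have h2 := hCb (fun i => c * 2 ^ (e i + 1)) (fun i => by
      have := Nat.one_le_two_pow (n := e i + 1)
      exact Nat.one_le_iff_ne_zero.mpr (by positivity))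
    have hcast : ∀ i, ((c * 2 ^ (e i + 1) : ℕ) : ℝ) = Pc * 2 ^ e i := by
      intro i
      rw [hPc]
      push_cast
      ring
    simp only [hcast] at h2
    refine (Nat.cast_le.mpr hcard).trans (h2.trans (le_of_eq ?_))
    rw [hK1, mul_assoc]
    congr 1
    rw [Real.rpow_sum_of_pos hq0, ← prod_mul_distrib]
    refine prod_congr rfl fun i _ => ?_
    rw [mul_pow]
    congr 1
    rw [mul_comm (R i), Real.rpow_mul hq0.le, Real.rpow_natCast, Real.rpow_natCast, hq,
      ← pow_mul, ← pow_mul, ← pow_mul]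
    congr 1
    ring
  refine ⟨K1 * C1, fun T hT => ?_⟩
  have hT0 : 0 < T := by linarith
  set LowU : Set (Pts K n) :=
    {x : Pts K n | U (fun i => (x i).rep) ∧ ∏ i, (x i).mulHeight ^ l i ≤ T} with hLowU
  set BB : ℝ := K1 * C1 * T ^ a * (1 + Real.log T) ^ (mlt n k l - 1) with hBB
  have hrank : ∀ Z : Finset (Pts K n), (↑Z : Set (Pts K n)) ⊆ LowU → (Z.card : ℝ) ≤ BB := by
    intro Z hZ
    have hE : ∀ e ∈ Z.image ex, q ^ (∑ i, l i * (e i : ℝ)) ≤ T := by
      intro e he
      obtain ⟨x, hx, rfl⟩ := mem_image.mp he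
      obtain ⟨-, h2⟩ := hZ hx
      refine le_trans ?_ h2
      rw [Real.rpow_sum_of_pos hq0]
      refine prod_le_prod (fun i _ => Real.rpow_nonneg hq0.le _) fun i _ => ?_
      rw [mul_comm (l i), Real.rpow_mul hq0.le, Real.rpow_natCast]
      exact Real.rpow_le_rpow (pow_nonneg hq0.le _) (hex1 x i).1 (hl i).le
    have h1 : (Z.card : ℝ) = ∑ e ∈ Z.image ex, ((Z.filter (fun x => ex x = e)).card : ℝ) := by
      exact_mod_cast card_eq_sum_card_image ex Z
    rw [h1]
    calc ∑ e ∈ Z.image ex, ((Z.filter (fun x => ex x = e)).card : ℝ)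
        ≤ ∑ e ∈ Z.image ex, K1 * q ^ (∑ i, R i * (e i : ℝ)) :=
          sum_le_sum fun e _ => hclass Z (fun x hx => (hZ hx).1) e
      _ = K1 * ∑ e ∈ Z.image ex, q ^ (∑ i, R i * (e i : ℝ)) := by rw [mul_sum]
      _ ≤ K1 * (C1 * T ^ a * (1 + Real.log T) ^ (J.card - 1)) :=
          mul_le_mul_of_nonneg_left (hbox T hT _ hE) hK10
      _ = BB := by
          rw [hBB, hmlt]
          ring
  have hfin : (LowU).Finite := by
    by_contra hinf
    obtain ⟨Z, hZ1, hZ2⟩ := Set.Infinite.exists_subset_card_eq hinf (⌊BB⌋₊ + 1)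
    have h1 := hrank Z hZ1
    rw [hZ2] at h1
    have h2 := Nat.lt_floor_add_one BB
    push_cast at h1
    linarith
  refine ⟨hfin, ?_⟩
  rw [Set.ncard_eq_toFinset_card _ hfin]
  exact hrank _ (by simp)

end Pool.Agent.Q38.EO
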