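import Pool.Agent.Q38.EO.MobC

/-! # Project EO (helper35), job EO-MOB: from integral vectors to rational points over `ℚ` -/

set_option autoImplicit false

namespace Pool.Agent.Q38.EO

open Finset Function Filter Topology
open Pool.Agent.Q35.MM Pool.Agent.Q35.EO Pool.Agent.Q35.SM

theorem mob (hHYP : Pool.Agent.Q35.EO.S_HYP) : Pool.Agent.Q35.EO.S_MOB := by
  classical
  intro ι _ _ n r U R η C hι hr hη hC hU hU0 hbox
  -- the numbers of the points with given norms
  set f : (ι → ℕ) → ℝ := fun h => (((BX U h).filter fun P => (fun l => nm (P l)) = h).card : ℝ)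
    with hf
  have hnm1 : ∀ P : ZT n, U (emb P) → ∀ l, 1 ≤ nm (P l) := fun P hP l => nm_pos (hU0 _ hP l)
  have hsum : ∀ b : ι → ℕ, ∑ h ∈ Fintype.piFinset fun l => Icc 1 (b l), f h =
      ((BX U b).card : ℝ) := by
    intro b
    have hmaps : ∀ P ∈ BX U b, (fun l => nm (P l)) ∈ Fintype.piFinset fun l => Icc 1 (b l) := by
      intro P hP
      rw [mem_BX] at hP
      rw [Fintype.mem_piFinset]
      intro l
      rw [mem_Icc]
      exact ⟨hnm1 P hP.1 l, hP.2 l⟩
    have h1 := card_eq_sum_card_fiberwise hmaps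
    rw [h1]
    push_cast
    refine sum_congr rfl fun h hh => ?_
    rw [Fintype.mem_piFinset] at hh
    refine congrArg (fun s : Finset (ZT n) => (s.card : ℝ)) ?_
    ext P
    rw [mem_filter, mem_filter, mem_BX, mem_BX]
    constructor
    · rintro ⟨⟨h2, -⟩, h3⟩
      refine ⟨⟨h2, fun l => ?_⟩, h3⟩
      have h4 : nm (P l) = h l := congrFun h3 l
      rw [h4]
      exact (mem_Icc.mp (hh l)).2
    · rintro ⟨⟨h2, -⟩, h3⟩
      refine ⟨⟨h2, fun l => ?_⟩, h3⟩
      have h4 : nm (P l) = h l := congrFun h3 l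
      rw [h4]
  have hS : ∀ B : ℝ, ∑ᶠ h ∈ {h : ι → ℕ | (∀ l, 1 ≤ h l) ∧ ∏ l, (h l : ℝ) ^ r l ≤ B}, f h =
      ((FB U r B).card : ℝ) := by
    intro B
    have hfin : {h : ι → ℕ | (∀ l, 1 ≤ h l) ∧ ∏ l, (h l : ℝ) ^ r l ≤ B}.Finite := by
      refine (Fintype.piFinset fun _ : ι => Icc 1 ⌊B⌋₊).finite_toSet.subset ?_
      rintro h ⟨h1, h2⟩
      rw [mem_coe, Fintype.mem_piFinset]
      intro l
      rw [mem_Icc]
      exact ⟨h1 l, Nat.le_floor ((le_prod_of hr h h1 l).trans h2)⟩
    rw [finsum_mem_eq_finite_toFinset_sum _ hfin]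
    have hmaps : ∀ P ∈ FB U r B, (fun l => nm (P l)) ∈ hfin.toFinset := by
      intro P hP
      rw [mem_FB hU0 hr] at hP
      rw [Set.Finite.mem_toFinset]
      exact ⟨hnm1 P hP.1, hP.2⟩
    have h1 := card_eq_sum_card_fiberwise hmaps
    rw [h1]
    push_cast
    refine sum_congr rfl fun h hh => ?_
    rw [Set.Finite.mem_toFinset] at hh
    obtain ⟨hh1, hh2⟩ := hh
    refine congrArg (fun s : Finset (ZT n) => (s.card : ℝ)) ?_
    ext P
    rw [mem_filter, mem_filter, mem_BX, mem_FB hU0 hr]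
    constructor
    · rintro ⟨⟨h2, -⟩, h3⟩
      refine ⟨⟨h2, ?_⟩, h3⟩
      have h4 : ∀ l, nm (P l) = h l := fun l => congrFun h3 l
      unfold wt
      simp only [h4]
      exact hh2
    · rintro ⟨⟨h2, -⟩, h3⟩
      refine ⟨⟨h2, fun l => ?_⟩, h3⟩
      have h4 : nm (P l) = h l := congrFun h3 l
      rw [h4]
  have hL := hHYP ι r f R η C hι (fun l => by have := hr l; omega) (fun h => Nat.cast_nonneg _)
    hη hC (fun b m hm hb => by
      have h1 := hbox b m hm hb
      rw [card_box] at h1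
      rw [hsum]
      exact h1)
  simp only [hS] at hL
  have hmain := anaA (Fintype.card ι - 1) r hr (fun B => ((FB U r B).card : ℝ))
    (fun x => Nat.cast_nonneg _) (fun x hx => by
      rw [FB_lt hU0 hr hx]
      simp) (FB_mono hU0 hr) _ hL
    (fun g => ∏ l, (ArithmeticFunction.moebius (g l) : ℝ)) (fun g => by
      rw [abs_prod]
      refine prod_le_one (fun _ _ => abs_nonneg _) fun l _ => ?_
      have h1 : |ArithmeticFunction.moebius (g l)| ≤ 1 := ArithmeticFunction.abs_moebius_le_one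
      exact_mod_cast h1) (fun g l hl => by
      refine prod_eq_zero (mem_univ l) ?_
      rw [hl]
      simp)
  simp only [← card_PP hU hU0 hr] at hmain
  have hfinal := hmain.div_const ((2 : ℝ) ^ Fintype.card ι)
  refine ⟨_, hfinal.congr fun B => ?_⟩
  have h1 := card_pts hU hU0 hr B
  have h2 : ((PP U r B).card : ℝ) = (({x : Pts ℚ n | U (fun i => (x i).rep) ∧
      ∏ i, (x i).mulHeight ^ r i ≤ B}.ncard : ℕ) : ℝ) * 2 ^ Fintype.card ι := by
    rw [← h1]
    push_cast
    rfl
  rw [h2]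
  field_simp

end Pool.Agent.Q38.EO
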