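import Mathlib

/-! # Project EO (helper35), job EO-MOB: the analytic part -/

set_option autoImplicit false

namespace Pool.Agent.Q38.EO

open Finset Filter Topology

theorem summable_pi {ι : Type} [Fintype ι] [DecidableEq ι] (u : ι → ℕ → ℝ)
    (hu0 : ∀ i j, 0 ≤ u i j) (hu : ∀ i, Summable (u i)) :
    Summable (fun g : ι → ℕ => ∏ i, u i (g i)) := by
  refine summable_of_sum_le (c := ∏ i, ∑' j, u i j) (fun g => prod_nonneg fun i _ => hu0 i _) ?_
  intro E
  set M : ℕ := (E.sup fun g => univ.sup g) + 1 with hM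
  have hsub : E ⊆ Fintype.piFinset (fun _ : ι => range M) := by
    intro g hg
    rw [Fintype.mem_piFinset]
    intro i
    rw [mem_range, hM, Nat.lt_succ_iff]
    exact (le_sup (f := g) (mem_univ i)).trans (le_sup (f := fun g : ι → ℕ => univ.sup g) hg)
  calc ∑ g ∈ E, ∏ i, u i (g i) ≤ ∑ g ∈ Fintype.piFinset (fun _ : ι => range M), ∏ i, u i (g i) :=
        sum_le_sum_of_subset_of_nonneg hsub fun g _ _ => prod_nonneg fun i _ => hu0 i _
    _ = ∏ i, ∑ j ∈ range M, u i j := by rw [prod_univ_sum]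
    _ ≤ ∏ i, ∑' j, u i j := by
        refine prod_le_prod (fun i _ => sum_nonneg fun j _ => hu0 i j) fun i _ => ?_
        exact (hu i).sum_le_tsum _ fun j _ => hu0 i j

theorem bound_S (s : ℕ) (S : ℝ → ℝ) (hS0 : ∀ x, 0 ≤ S x) (hSm : Monotone S) (L : ℝ)
    (hL : Tendsto (fun B => S B / (B * Real.log B ^ s)) atTop (𝓝 L)) :
    ∃ C : ℝ, 0 ≤ C ∧ ∀ x : ℝ, 1 ≤ x → S x ≤ C * x * (1 + Real.log x) ^ s := by
  have h1 : ∀ᶠ B : ℝ in atTop, S B / (B * Real.log B ^ s) < |L| + 1 :=
    hL.eventually (gt_mem_nhds (by linarith [le_abs_self L]))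
  obtain ⟨x0, hx0⟩ := eventually_atTop.mp (h1.and (eventually_ge_atTop (2 : ℝ)))
  have hx1 : (2 : ℝ) ≤ x0 := (hx0 x0 le_rfl).2
  refine ⟨|L| + 1 + S x0, by have := hS0 x0; positivity, fun x hx => ?_⟩
  have hlx : 0 ≤ Real.log x := Real.log_nonneg hx
  have hP : (1 : ℝ) ≤ (1 + Real.log x) ^ s := one_le_pow₀ (by linarith)
  have hL0 : 0 ≤ |L| := abs_nonneg L
  rcases le_total x0 x with h | h
  · obtain ⟨h2, h3⟩ := hx0 x h
    have hlx' : 0 < Real.log x := Real.log_pos (by linarith)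
    have hpos : 0 < x * Real.log x ^ s := by positivity
    rw [div_lt_iff₀ hpos] at h2
    have h4 : Real.log x ^ s ≤ (1 + Real.log x) ^ s := pow_le_pow_left₀ hlx (by linarith) s
    have h5 : x * Real.log x ^ s ≤ x * (1 + Real.log x) ^ s :=
      mul_le_mul_of_nonneg_left h4 (by linarith)
    have h6 : (|L| + 1) * (x * Real.log x ^ s) ≤ (|L| + 1) * (x * (1 + Real.log x) ^ s) :=
      mul_le_mul_of_nonneg_left h5 (by linarith)
    have h7 : 0 ≤ S x0 * (x * (1 + Real.log x) ^ s) := by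
      have := hS0 x0
      positivity
    nlinarith
  · have h2 : S x ≤ S x0 := hSm h
    have h3 : (1 : ℝ) ≤ x * (1 + Real.log x) ^ s := by nlinarith
    have h4 : S x0 * 1 ≤ S x0 * (x * (1 + Real.log x) ^ s) :=
      mul_le_mul_of_nonneg_left h3 (hS0 x0)
    have h5 : 0 ≤ (|L| + 1) * (x * (1 + Real.log x) ^ s) := by positivity
    nlinarith

theorem lim_one (s : ℕ) (S : ℝ → ℝ) (L G : ℝ) (hG : 1 ≤ G)
    (hL : Tendsto (fun B => S B / (B * Real.log B ^ s)) atTop (𝓝 L)) :
    Tendsto (fun B => S (B / G) / (B * Real.log B ^ s)) atTop (𝓝 (L * G⁻¹)) := by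
  have hG0 : 0 < G := by linarith
  have h1 : Tendsto (fun B : ℝ => B / G) atTop atTop := tendsto_id.atTop_div_const hG0
  have h2 := hL.comp h1
  have h3 : Tendsto (fun B : ℝ => (1 - Real.log G / Real.log B) ^ s) atTop (𝓝 ((1 - 0) ^ s)) := by
    refine (tendsto_const_nhds.sub ?_).pow s
    exact Tendsto.div_atTop tendsto_const_nhds Real.tendsto_log_atTop
  have h4 := (h2.mul_const G⁻¹).mul h3
  rw [sub_zero, one_pow, mul_one] at h4
  refine h4.congr' ?_
  filter_upwards [eventually_gt_atTop (G * 1), eventually_gt_atTop (1 : ℝ)] with B hB hB1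
  have hB0 : 0 < B := by linarith
  have hlB : 0 < Real.log B := Real.log_pos hB1
  have hBG : 1 < B / G := by
    rw [lt_div_iff₀ hG0]
    linarith
  have hlBG : 0 < Real.log (B / G) := Real.log_pos hBG
  have h5 : 1 - Real.log G / Real.log B = Real.log (B / G) / Real.log B := by
    rw [Real.log_div hB0.ne' hG0.ne']
    field_simp
  simp only [Function.comp]
  rw [h5, div_pow]
  field_simp

theorem anaA {ι : Type} [Fintype ι] [DecidableEq ι] (s : ℕ) (r : ι → ℕ) (hr : ∀ l, 2 ≤ r l)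
    (S : ℝ → ℝ) (hS0 : ∀ x, 0 ≤ S x) (hS1 : ∀ x, x < 1 → S x = 0) (hSm : Monotone S) (L : ℝ)
    (hL : Tendsto (fun B => S B / (B * Real.log B ^ s)) atTop (𝓝 L)) (μ : (ι → ℕ) → ℝ)
    (hμ : ∀ g, |μ g| ≤ 1) (hμ0 : ∀ g l, g l = 0 → μ g = 0) :
    Tendsto (fun B : ℝ => (∑ g ∈ Fintype.piFinset (fun _ : ι => Icc 1 ⌊B⌋₊),
      μ g * S (B / ∏ l, (g l : ℝ) ^ r l)) / (B * Real.log B ^ s)) atTop
      (𝓝 (∑' g : ι → ℕ, μ g * (L * (∏ l, (g l : ℝ) ^ r l)⁻¹))) := by
  obtain ⟨C, hC, hCb⟩ := bound_S s S hS0 hSm L hL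
  have hG1 : ∀ g : ι → ℕ, (∀ l, g l ≠ 0) → 1 ≤ ∏ l, (g l : ℝ) ^ r l := by
    intro g hg
    have : ∀ l ∈ univ, (1 : ℝ) ≤ (g l : ℝ) ^ r l := by
      intro l _
      refine one_le_pow₀ ?_
      exact_mod_cast Nat.one_le_iff_ne_zero.mpr (hg l)
    calc (1 : ℝ) = ∏ _l : ι, (1 : ℝ) := by simp
      _ ≤ _ := prod_le_prod (fun _ _ => zero_le_one) this
  have hsum : Summable (fun g : ι → ℕ => C * 2 ^ s * ∏ l, ((g l : ℝ) ^ r l)⁻¹) := by
    refine Summable.mul_left _ ?_
    refine summable_pi (fun l j => ((j : ℝ) ^ r l)⁻¹) (fun l j => by positivity) fun l => ?_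
    have := Real.summable_nat_pow_inv (p := r l)
    exact this.mpr (by have := hr l; omega)
  have hkey := tendsto_tsum_of_dominated_convergence
    (f := fun (B : ℝ) (g : ι → ℕ) => μ g * (S (B / ∏ l, (g l : ℝ) ^ r l) / (B * Real.log B ^ s)))
    (g := fun g : ι → ℕ => μ g * (L * (∏ l, (g l : ℝ) ^ r l)⁻¹)) (𝓕 := atTop) hsum ?_ ?_
  · refine hkey.congr' ?_
    filter_upwards [eventually_gt_atTop (0 : ℝ)] with B hB
    rw [tsum_eq_sum (s := Fintype.piFinset (fun _ : ι => Icc 1 ⌊B⌋₊)), sum_div]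
    · refine sum_congr rfl fun g _ => ?_
      rw [mul_div_assoc]
    · intro g hg
      by_cases h0 : ∃ l, g l = 0
      · obtain ⟨l, hl⟩ := h0
        rw [hμ0 g l hl, zero_mul]
      · push Not at h0
        rw [Fintype.mem_piFinset] at hg
        push Not at hg
        obtain ⟨l, hl⟩ := hg
        rw [mem_Icc] at hl
        have h1 : 1 ≤ g l := Nat.one_le_iff_ne_zero.mpr (h0 l)
        have h2 : ⌊B⌋₊ < g l := by
          by_contra h
          exact hl ⟨h1, by omega⟩
        have h3 : B < g l := (Nat.floor_lt hB.le).mp h2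
        have h4 : (g l : ℝ) ≤ ∏ l, (g l : ℝ) ^ r l := by
          have h5 : (g l : ℝ) ≤ (g l : ℝ) ^ r l := by
            refine le_self_pow₀ (by exact_mod_cast h1) ?_
            have := hr l
            omega
          refine h5.trans ?_
          rw [← mul_prod_erase univ _ (mem_univ l)]
          refine le_mul_of_one_le_right (by positivity) ?_
          calc (1 : ℝ) = ∏ _l ∈ univ.erase l, (1 : ℝ) := by simp
            _ ≤ _ := prod_le_prod (fun _ _ => zero_le_one) fun i _ =>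
              one_le_pow₀ (by exact_mod_cast Nat.one_le_iff_ne_zero.mpr (h0 i))
        have h6 : B / ∏ l, (g l : ℝ) ^ r l < 1 := by
          have h7 := hG1 g h0
          rw [div_lt_one (by linarith)]
          linarith
        rw [hS1 _ h6, zero_div, mul_zero]
  · intro g
    by_cases h0 : ∃ l, g l = 0
    · obtain ⟨l, hl⟩ := h0
      simp [hμ0 g l hl]
    · push Not at h0
      exact (lim_one s S L _ (hG1 g h0) hL).const_mul (μ g)
  · filter_upwards [eventually_ge_atTop (Real.exp 1)] with B hB g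
    by_cases h0 : ∃ l, g l = 0
    · obtain ⟨l, hl⟩ := h0
      simp only [hμ0 g l hl, zero_mul, norm_zero]
      positivity
    · push Not at h0
      have hG := hG1 g h0
      set G : ℝ := ∏ l, (g l : ℝ) ^ r l with hGdef
      have hG0 : 0 < G := by linarith
      have hB0 : 0 < B := lt_of_lt_of_le (Real.exp_pos 1) hB
      have hlB : 1 ≤ Real.log B := by
        have := Real.log_le_log (Real.exp_pos 1) hB
        rwa [Real.log_exp] at this
      have hlB0 : 0 < Real.log B := by linarith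
      have hpi : ∏ l, ((g l : ℝ) ^ r l)⁻¹ = G⁻¹ := by rw [prod_inv_distrib]
      rw [hpi, Real.norm_eq_abs, abs_mul]
      have hq0 : 0 ≤ S (B / G) / (B * Real.log B ^ s) := by
        have := hS0 (B / G)
        positivity
      rw [abs_of_nonneg hq0]
      refine (mul_le_of_le_one_left hq0 (hμ g)).trans ?_
      by_cases h1 : B / G < 1
      · rw [hS1 _ h1, zero_div]
        positivity
      · push Not at h1
        have h2 := hCb (B / G) h1
        have h3 : Real.log (B / G) ≤ Real.log B := by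
          refine Real.log_le_log (by linarith) ?_
          exact div_le_self hB0.le hG
        have h4 : 0 ≤ Real.log (B / G) := Real.log_nonneg h1
        have h5 : (1 + Real.log (B / G)) ^ s ≤ (2 * Real.log B) ^ s :=
          pow_le_pow_left₀ (by linarith) (by linarith) s
        rw [div_le_iff₀ (by positivity)]
        calc S (B / G) ≤ C * (B / G) * (1 + Real.log (B / G)) ^ s := h2
          _ ≤ C * (B / G) * (2 * Real.log B) ^ s :=
            mul_le_mul_of_nonneg_left h5 (by positivity)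
          _ = C * 2 ^ s * G⁻¹ * (B * Real.log B ^ s) := by
            rw [mul_pow, div_eq_mul_inv]
            ring

end Pool.Agent.Q38.EO
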