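import Pool.Agent.Q35.EO.Stm
import Pool.Agent.Q38.EO.MobA

/-! # Project EO (helper35), job EO-MOB: the arithmetic part -/

set_option autoImplicit false

namespace Pool.Agent.Q38.EO

open Finset Function
open Pool.Agent.Q35.MM Pool.Agent.Q35.EO Pool.Agent.Q35.SM

/-- Integral tuples. -/
abbrev ZT {ι : Type} (n : ι → ℕ) : Type := ∀ i : ι, Fin (n i + 1) → ℤ

/-- The rational vector of an integral vector. -/
def zq {m : ℕ} (x : Fin m → ℤ) : Fin m → ℚ := fun a => (x a : ℚ)

/-- The rational tuple of an integral tuple. -/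
def emb {ι : Type} {n : ι → ℕ} (P : ZT n) : Vs ℚ n := fun i => zq (P i)

/-- The maximal absolute value of the coordinates. -/
def nm {m : ℕ} (x : Fin m → ℤ) : ℕ := univ.sup fun a => (x a).natAbs

/-- The content. -/
def cont {m : ℕ} (x : Fin m → ℤ) : ℕ := (univ.gcd x).natAbs

theorem zq_inj {m : ℕ} : Injective (zq (m := m)) := by
  intro x y h
  funext a
  have := congrFun h a
  simpa [zq] using this

theorem emb_inj {ι : Type} {n : ι → ℕ} : Injective (emb (n := n)) := by
  intro P Q h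
  funext i
  exact zq_inj (congrFun h i)

theorem nm_le {m : ℕ} {x : Fin m → ℤ} {b : ℕ} : nm x ≤ b ↔ ∀ a, (x a).natAbs ≤ b := by
  unfold nm
  rw [Finset.sup_le_iff]
  simp

theorem natAbs_le_nm {m : ℕ} (x : Fin m → ℤ) (a : Fin m) : (x a).natAbs ≤ nm x :=
  nm_le.mp le_rfl a

theorem nm_smul {m : ℕ} (g : ℤ) (x : Fin m → ℤ) : nm (fun a => g * x a) = g.natAbs * nm x := by
  apply le_antisymm
  · rw [nm_le]
    intro a
    rw [Int.natAbs_mul]
    exact Nat.mul_le_mul_left _ (natAbs_le_nm x a)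
  · rcases (univ : Finset (Fin m)).eq_empty_or_nonempty with h | h
    · simp [nm, h]
    · obtain ⟨a, -, ha⟩ := exists_mem_eq_sup univ h (fun a => (x a).natAbs)
      have h1 : nm x = (x a).natAbs := ha
      rw [h1, ← Int.natAbs_mul]
      exact natAbs_le_nm (fun a => g * x a) a

theorem nm_pos {m : ℕ} {x : Fin m → ℤ} (hx : zq x ≠ 0) : 1 ≤ nm x := by
  by_contra h
  apply hx
  funext a
  have h1 := natAbs_le_nm x a
  have h2 : x a = 0 := by omega
  simp [zq, h2]

theorem cont_dvd {m : ℕ} (x : Fin m → ℤ) (g : ℕ) : g ∣ cont x ↔ ∀ a, (g : ℤ) ∣ x a := by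
  unfold cont
  rw [← Int.natCast_dvd, Finset.dvd_gcd_iff]
  simp

theorem cont_eq_one {m : ℕ} (x : Fin m → ℤ) : cont x = 1 ↔ univ.gcd x = 1 := by
  unfold cont
  constructor
  · intro h
    rw [← Finset.normalize_gcd, ← Int.abs_eq_normalize, Int.abs_eq_natAbs, h]
    rfl
  · intro h
    rw [h]
    rfl

theorem cont_ne {m : ℕ} {x : Fin m → ℤ} (hx : zq x ≠ 0) : cont x ≠ 0 := by
  intro h
  apply hx
  have h1 : (0 : ℕ) ∣ cont x := by rw [h]
  rw [cont_dvd] at h1
  funext a
  have := h1 a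
  rw [Nat.cast_zero, zero_dvd_iff] at this
  simp [zq, this]

theorem cont_le {m : ℕ} {x : Fin m → ℤ} (hx : zq x ≠ 0) : cont x ≤ nm x := by
  obtain ⟨a, ha⟩ : ∃ a, x a ≠ 0 := by
    by_contra h
    push Not at h
    exact hx (by funext a; simp [zq, h a])
  have h1 := (cont_dvd x (cont x)).mp dvd_rfl a
  have h2 : cont x ∣ (x a).natAbs := Int.natCast_dvd.mp h1
  exact (Nat.le_of_dvd (Int.natAbs_pos.mpr ha) h2).trans (natAbs_le_nm x a)

theorem cont_smul {m : ℕ} (g : ℤ) (x : Fin m → ℤ) :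
    cont (fun a => g * x a) = g.natAbs * cont x := by
  unfold cont
  rw [Finset.gcd_mul_left, Int.natAbs_mul]
  congr 1
  rw [← Int.abs_eq_normalize, Int.natAbs_abs]

theorem height_eq {m : ℕ} {x : Fin (m + 1) → ℤ} (hx : cont x = 1) :
    Height.mulHeight (zq x) = nm x := by
  rw [cont_eq_one] at hx
  have h1 := Rat.mulHeight_eq_max_abs_of_gcd_eq_one hx
  have h2 : (zq x) = ((↑) : ℤ → ℚ) ∘ x := rfl
  rw [h2, h1]
  have h3 : (⨆ i, |x i|) = ((nm x : ℕ) : ℤ) := by
    apply le_antisymm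
    · refine ciSup_le fun i => ?_
      rw [Int.abs_eq_natAbs]
      exact_mod_cast natAbs_le_nm x i
    · obtain ⟨a, -, ha⟩ := exists_mem_eq_sup univ univ_nonempty (fun a => (x a).natAbs)
      have h4 : nm x = (x a).natAbs := ha
      rw [h4, ← Int.abs_eq_natAbs]
      exact Finite.le_ciSup (fun i => |x i|) a
  rw [h3]
  simp

theorem prim_unique {m : ℕ} {x y : Fin m → ℤ} (hx : cont x = 1) (hy : cont y = 1) (t : ℚ)
    (h : zq x = t • zq y) : t = 1 ∨ t = -1 := by
  have h1 : (fun a => (t.den : ℤ) * x a) = fun a => t.num * y a := by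
    funext a
    have h2 := congrFun h a
    simp only [zq, Pi.smul_apply, smul_eq_mul] at h2
    have h3 : (t.den : ℚ) * (x a : ℚ) = (t.num : ℚ) * (y a : ℚ) := by
      rw [h2, ← mul_assoc, mul_comm (t.den : ℚ) t, Rat.mul_den_eq_num]
    exact_mod_cast h3
  have h4 := congrArg cont h1
  rw [cont_smul, cont_smul, hx, hy, mul_one, mul_one, Int.natAbs_natCast] at h4
  have h5 : (t.den : ℚ) ≠ 0 := by exact_mod_cast t.den_nz
  rcases Int.natAbs_eq t.num with h6 | h6
  · left
    rw [← Rat.num_div_den t, h6, ← h4]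
    field_simp
    simp
  · right
    rw [← Rat.num_div_den t, h6, ← h4]
    field_simp
    simp

theorem exists_prim {m : ℕ} (v : Fin (m + 1) → ℚ) (hv : v ≠ 0) :
    ∃ x : Fin (m + 1) → ℤ, cont x = 1 ∧ ∃ t : ℚ, t ≠ 0 ∧ zq x = t • v := by
  obtain ⟨b, hb⟩ := IsLocalization.exist_integer_multiples_of_finite (nonZeroDivisors ℤ) v
  choose w hw using hb
  have hb0 : ((b : ℤ) : ℚ) ≠ 0 := by
    have := nonZeroDivisors.ne_zero b.2
    exact_mod_cast this
  have hw' : ∀ a, (w a : ℚ) = (b : ℤ) * v a := by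
    intro a
    have := hw a
    simpa using this
  obtain ⟨x, hx1, hx2⟩ := Finset.extract_gcd w (s := univ) univ_nonempty
  have hd : univ.gcd w ≠ 0 := by
    intro h0
    apply hv
    funext a
    have h1 := hx1 a (mem_univ a)
    rw [h0, zero_mul] at h1
    have h2 := hw' a
    rw [h1] at h2
    simp only [Int.cast_zero] at h2
    have := (mul_eq_zero.mp h2.symm).resolve_left hb0
    simpa using this
  have hd' : ((univ.gcd w : ℤ) : ℚ) ≠ 0 := by exact_mod_cast hd
  refine ⟨x, (cont_eq_one x).2 hx2, (b : ℤ) / (univ.gcd w : ℤ), div_ne_zero hb0 hd', ?_⟩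
  funext a
  have h1 := hx1 a (mem_univ a)
  have h2 := hw' a
  rw [h1] at h2
  push_cast at h2
  simp only [zq, Pi.smul_apply, smul_eq_mul]
  field_simp
  linarith

end Pool.Agent.Q38.EO
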