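import Pool.Agent.Q38.EO.MobB

/-! # Project EO (helper35), job EO-MOB: the counting sets -/

set_option autoImplicit false

namespace Pool.Agent.Q38.EO

open Finset Function
open Pool.Agent.Q35.MM Pool.Agent.Q35.EO Pool.Agent.Q35.SM

variable {ι : Type} [Fintype ι] [DecidableEq ι] {n : ι → ℕ}

/-- The invariance under scaling. -/
def Inv (U : Vs ℚ n → Prop) : Prop :=
  ∀ a : ι → ℚ, (∀ i, a i ≠ 0) → ∀ P, U P → U fun i => a i • P i

theorem V_smul {U : Vs ℚ n → Prop} (hU : Inv U) (g : ι → ℤ) (hg : ∀ i, g i ≠ 0) (P : ZT n) :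
    U (emb fun i a => g i * P i a) ↔ U (emb P) := by
  have hg' : ∀ i, (g i : ℚ) ≠ 0 := fun i => by exact_mod_cast hg i
  constructor
  · intro h
    have h1 := hU (fun i => (g i : ℚ)⁻¹) (fun i => inv_ne_zero (hg' i)) _ h
    convert h1 using 1
    funext i a
    simp only [emb, zq, Pi.smul_apply, smul_eq_mul]
    push_cast
    rw [inv_mul_cancel_left₀ (hg' i)]
  · intro h
    have h1 := hU (fun i => (g i : ℚ)) hg' _ h
    convert h1 using 1
    funext i a
    simp only [emb, zq, Pi.smul_apply, smul_eq_mul]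
    push_cast
    rfl

open Classical in
/-- The points in boxes. -/
noncomputable def BX (U : Vs ℚ n → Prop) (b : ι → ℕ) : Finset (ZT n) :=
  (Fintype.piFinset fun l => Fintype.piFinset fun _ => Icc (-(b l : ℤ)) (b l)).filter
    fun P => U (emb P)

theorem mem_BX {U : Vs ℚ n → Prop} {b : ι → ℕ} {P : ZT n} :
    P ∈ BX U b ↔ U (emb P) ∧ ∀ l, nm (P l) ≤ b l := by
  classical
  unfold BX
  rw [mem_filter, Fintype.mem_piFinset, and_comm]
  refine and_congr_right fun _ => forall_congr' fun l => ?_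
  rw [Fintype.mem_piFinset, nm_le]
  refine forall_congr' fun a => ?_
  rw [mem_Icc]
  omega

open Classical in
theorem card_box (U : Vs ℚ n → Prop) (b : ι → ℕ) :
    ((Fintype.piFinset fun l => bx ℚ (n l + 1) (b l)).filter fun P => U P).card =
      (BX U b).card := by
  rw [← card_image_of_injective (BX U b) (emb_inj (n := n))]
  congr 1
  ext P
  rw [mem_filter, Fintype.mem_piFinset, mem_image]
  have hS1 : ∀ (x : ℚ) (c : ℕ), x ∈ S1 ℚ c ↔ ∃ z : ℤ, (z : ℚ) = x ∧ z.natAbs ≤ c := by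
    intro x c
    unfold S1
    rw [Set.mem_ofPred_eq]
    constructor
    · rintro ⟨h1, h2⟩
      obtain ⟨z, hz⟩ := IsIntegrallyClosed.isIntegral_iff.mp h1
      have hz' : (z : ℚ) = x := by simpa using hz
      refine ⟨z, hz', ?_⟩
      have h3 := h2 (algebraMap ℚ ℂ)
      rw [← hz', map_intCast, Complex.norm_intCast] at h3
      have h4 : |z| ≤ (c : ℤ) := by exact_mod_cast h3
      rw [Int.abs_eq_natAbs] at h4
      exact_mod_cast h4
    · rintro ⟨z, rfl, hz⟩
      refine ⟨isIntegral_algebraMap (R := ℤ) (A := ℚ) (x := z), fun φ => ?_⟩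
      rw [map_intCast, Complex.norm_intCast]
      have h4 : |z| ≤ (c : ℤ) := by
        rw [Int.abs_eq_natAbs]
        exact_mod_cast hz
      exact_mod_cast h4
  constructor
  · rintro ⟨h1, h2⟩
    have h3 : ∀ l a, ∃ z : ℤ, (z : ℚ) = P l a ∧ z.natAbs ≤ b l := fun l a =>
      (hS1 _ _).mp (mem_bx.mp (h1 l) a)
    choose Q hQ1 hQ2 using h3
    have h4 : emb (n := n) Q = P := by
      funext l a
      exact hQ1 l a
    refine ⟨Q, mem_BX.mpr ⟨h4 ▸ h2, fun l => nm_le.mpr (hQ2 l)⟩, h4⟩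
  · rintro ⟨Q, hQ, rfl⟩
    obtain ⟨h1, h2⟩ := mem_BX.mp hQ
    refine ⟨fun l => mem_bx.mpr fun a => (hS1 _ _).mpr ⟨Q l a, rfl, nm_le.mp (h2 l) a⟩, h1⟩

/-- The weight. -/
noncomputable def wt (r : ι → ℕ) (P : ZT n) : ℝ := ∏ l, (nm (P l) : ℝ) ^ r l

open Classical in
/-- The points with bounded product. -/
noncomputable def FB (U : Vs ℚ n → Prop) (r : ι → ℕ) (B : ℝ) : Finset (ZT n) :=
  (BX U fun _ => ⌊B⌋₊).filter fun P => wt r P ≤ B

theorem le_prod_of {r : ι → ℕ} (hr : ∀ l, 2 ≤ r l) (h : ι → ℕ) (hh : ∀ l, 1 ≤ h l) (l : ι) :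
    (h l : ℝ) ≤ ∏ l, (h l : ℝ) ^ r l := by
  have h5 : (h l : ℝ) ≤ (h l : ℝ) ^ r l := by
    refine le_self_pow₀ (by exact_mod_cast hh l) ?_
    have := hr l
    omega
  refine h5.trans ?_
  rw [← mul_prod_erase univ _ (mem_univ l)]
  refine le_mul_of_one_le_right (by positivity) ?_
  calc (1 : ℝ) = ∏ _l ∈ univ.erase l, (1 : ℝ) := by simp
    _ ≤ _ := prod_le_prod (fun _ _ => zero_le_one) fun i _ =>
      one_le_pow₀ (by exact_mod_cast hh i)

theorem one_le_prod (r : ι → ℕ) (h : ι → ℕ) (hh : ∀ l, 1 ≤ h l) :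
    1 ≤ ∏ l, (h l : ℝ) ^ r l := by
  calc (1 : ℝ) = ∏ _l : ι, (1 : ℝ) := by simp
    _ ≤ _ := prod_le_prod (fun _ _ => zero_le_one) fun i _ =>
      one_le_pow₀ (by exact_mod_cast hh i)

variable {U : Vs ℚ n → Prop} {r : ι → ℕ}

theorem mem_FB (hU0 : ∀ P, U P → ∀ i, P i ≠ 0) (hr : ∀ l, 2 ≤ r l) {B : ℝ} {P : ZT n} :
    P ∈ FB U r B ↔ U (emb P) ∧ wt r P ≤ B := by
  classical
  unfold FB
  rw [mem_filter, mem_BX]
  constructor
  · rintro ⟨⟨h1, -⟩, h2⟩
    exact ⟨h1, h2⟩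
  · rintro ⟨h1, h2⟩
    refine ⟨⟨h1, fun l => ?_⟩, h2⟩
    refine Nat.le_floor ?_
    exact (le_prod_of hr (fun l => nm (P l)) (fun l => nm_pos (hU0 _ h1 l)) l).trans h2

theorem FB_mono (hU0 : ∀ P, U P → ∀ i, P i ≠ 0) (hr : ∀ l, 2 ≤ r l) :
    Monotone fun B : ℝ => ((FB U r B).card : ℝ) := by
  intro B B' h
  simp only
  have : FB U r B ⊆ FB U r B' := by
    intro P hP
    rw [mem_FB hU0 hr] at hP ⊢
    exact ⟨hP.1, hP.2.trans h⟩
  exact_mod_cast card_le_card this

theorem FB_lt (hU0 : ∀ P, U P → ∀ i, P i ≠ 0) (hr : ∀ l, 2 ≤ r l) {B : ℝ} (hB : B < 1) :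
    (FB U r B).card = 0 := by
  rw [card_eq_zero, eq_empty_iff_forall_notMem]
  intro P hP
  rw [mem_FB hU0 hr] at hP
  have h1 := one_le_prod r (fun l => nm (P l)) (fun l => nm_pos (hU0 _ hP.1 l))
  have h2 := hP.2
  unfold wt at h2
  linarith

theorem wt_smul (g : ι → ℤ) (P : ZT n) :
    wt r (fun i a => g i * P i a) = (∏ l, ((g l).natAbs : ℝ) ^ r l) * wt r P := by
  unfold wt
  rw [← prod_mul_distrib]
  refine prod_congr rfl fun l _ => ?_
  rw [nm_smul, ← mul_pow]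
  push_cast
  rfl

theorem FB_scale (hU : Inv U) (hU0 : ∀ P, U P → ∀ i, P i ≠ 0) (hr : ∀ l, 2 ≤ r l) (B : ℝ)
    (g : ι → ℕ) (hg : ∀ l, 1 ≤ g l) :
    ((FB U r B).filter fun P => ∀ l, g l ∣ cont (P l)).card =
      (FB U r (B / ∏ l, (g l : ℝ) ^ r l)).card := by
  classical
  have hg0 : ∀ l, ((g l : ℕ) : ℤ) ≠ 0 := fun l => by
    have := hg l
    omega
  have hinj : Injective fun (Q : ZT n) (i : ι) (a : Fin (n i + 1)) => ((g i : ℕ) : ℤ) * Q i a := by
    intro Q Q' h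
    funext i a
    exact mul_left_cancel₀ (hg0 i) (congrFun (congrFun h i) a)
  rw [← card_image_of_injective (FB U r (B / ∏ l, (g l : ℝ) ^ r l)) hinj]
  congr 1
  have hG : 0 < ∏ l, (g l : ℝ) ^ r l := by
    have := one_le_prod r g hg
    linarith
  have hkey : ∀ Q : ZT n, (fun (i : ι) (a : Fin (n i + 1)) => ((g i : ℕ) : ℤ) * Q i a) ∈
      FB U r B ↔ Q ∈ FB U r (B / ∏ l, (g l : ℝ) ^ r l) := by
    intro Q
    rw [mem_FB hU0 hr, mem_FB hU0 hr, V_smul hU (fun i => ((g i : ℕ) : ℤ)) hg0,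
      wt_smul (fun i => ((g i : ℕ) : ℤ)), le_div_iff₀ hG, mul_comm]
    simp
  ext P
  rw [mem_filter, mem_image]
  constructor
  · rintro ⟨h1, h2⟩
    have h3 : ∀ l, ∀ a, ∃ z, P l a = ((g l : ℕ) : ℤ) * z := fun l a =>
      (cont_dvd (P l) (g l)).mp (h2 l) a
    choose Q hQ using h3
    have h4 : P = fun (i : ι) (a : Fin (n i + 1)) => ((g i : ℕ) : ℤ) * Q i a := by
      funext i a
      exact hQ i a
    refine ⟨Q, ?_, h4.symm⟩
    rw [← hkey, ← h4]
    exact h1
  · rintro ⟨Q, hQ, rfl⟩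
    refine ⟨(hkey Q).mpr hQ, fun l => ?_⟩
    rw [cont_dvd]
    exact fun a => dvd_mul_right _ _

theorem mob_sum (c M : ℕ) (hc : c ≠ 0) (hM : c ≤ M) :
    ∑ d ∈ Icc 1 M, (if d ∣ c then (ArithmeticFunction.moebius d : ℝ) else 0) =
      if c = 1 then 1 else 0 := by
  rw [← sum_filter]
  have h1 : (Icc 1 M).filter (fun d => d ∣ c) = c.divisors := by
    ext d
    rw [mem_filter, mem_Icc, Nat.mem_divisors]
    constructor
    · rintro ⟨-, h⟩
      exact ⟨h, hc⟩
    · rintro ⟨h, -⟩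
      have h2 := Nat.le_of_dvd (Nat.pos_of_ne_zero hc) h
      have h3 : d ≠ 0 := by
        rintro rfl
        exact hc (zero_dvd_iff.mp h)
      exact ⟨⟨Nat.one_le_iff_ne_zero.mpr h3, by omega⟩, h⟩
  rw [h1]
  have h2 : ∑ d ∈ c.divisors, ArithmeticFunction.moebius d = if c = 1 then 1 else 0 := by
    have h3 := ArithmeticFunction.coe_mul_zeta_apply (f := ArithmeticFunction.moebius) (x := c)
    rw [← h3, ArithmeticFunction.moebius_mul_coe_zeta, ArithmeticFunction.one_apply]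
  have h3 : ((∑ d ∈ c.divisors, ArithmeticFunction.moebius d : ℤ) : ℝ) =
      ((if c = 1 then 1 else 0 : ℤ) : ℝ) := by rw [h2]
  push_cast at h3
  rw [h3]

open Classical in
/-- The primitive points with bounded product. -/
noncomputable def PP (U : Vs ℚ n → Prop) (r : ι → ℕ) (B : ℝ) : Finset (ZT n) :=
  (FB U r B).filter fun P => ∀ l, cont (P l) = 1

theorem card_PP (hU : Inv U) (hU0 : ∀ P, U P → ∀ i, P i ≠ 0) (hr : ∀ l, 2 ≤ r l) (B : ℝ) :
    ((PP U r B).card : ℝ) = ∑ g ∈ Fintype.piFinset (fun _ : ι => Icc 1 ⌊B⌋₊),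
      (∏ l, (ArithmeticFunction.moebius (g l) : ℝ)) *
        ((FB U r (B / ∏ l, (g l : ℝ) ^ r l)).card : ℝ) := by
  classical
  have h1 : ∀ g ∈ Fintype.piFinset (fun _ : ι => Icc 1 ⌊B⌋₊),
      (∏ l, (ArithmeticFunction.moebius (g l) : ℝ)) *
        ((FB U r (B / ∏ l, (g l : ℝ) ^ r l)).card : ℝ) =
      ∑ P ∈ FB U r B, ∏ l, (if g l ∣ cont (P l) then (ArithmeticFunction.moebius (g l) : ℝ)
        else 0) := by
    intro g hg
    rw [Fintype.mem_piFinset] at hg
    have hg1 : ∀ l, 1 ≤ g l := fun l => (mem_Icc.mp (hg l)).1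
    rw [← FB_scale hU hU0 hr B g hg1, card_filter]
    push_cast
    rw [mul_sum]
    refine sum_congr rfl fun P _ => ?_
    by_cases h : ∀ l, g l ∣ cont (P l)
    · rw [if_pos h, mul_one]
      exact prod_congr rfl fun l _ => by rw [if_pos (h l)]
    · rw [if_neg h, mul_zero]
      push Not at h
      obtain ⟨l, hl⟩ := h
      exact (prod_eq_zero (mem_univ l) (by rw [if_neg hl])).symm
  rw [sum_congr rfl h1, sum_comm]
  unfold PP
  rw [card_filter]
  push_cast
  refine sum_congr rfl fun P hP => ?_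
  rw [mem_FB hU0 hr] at hP
  have h2 : ∑ g ∈ Fintype.piFinset (fun _ : ι => Icc 1 ⌊B⌋₊),
      ∏ l, (if g l ∣ cont (P l) then (ArithmeticFunction.moebius (g l) : ℝ) else 0) =
      ∏ l, ∑ d ∈ Icc 1 ⌊B⌋₊, (if d ∣ cont (P l) then (ArithmeticFunction.moebius d : ℝ)
        else 0) := by
    rw [prod_univ_sum]
  rw [h2]
  have h3 : ∀ l, ∑ d ∈ Icc 1 ⌊B⌋₊, (if d ∣ cont (P l) then (ArithmeticFunction.moebius d : ℝ)
        else 0) = if cont (P l) = 1 then 1 else 0 := by
    intro l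
    refine mob_sum _ _ (cont_ne (hU0 _ hP.1 l)) ?_
    refine (cont_le (hU0 _ hP.1 l)).trans (Nat.le_floor ?_)
    exact (le_prod_of hr (fun l => nm (P l)) (fun l => nm_pos (hU0 _ hP.1 l)) l).trans hP.2
  rw [prod_congr rfl fun l _ => h3 l]
  by_cases h : ∀ l, cont (P l) = 1
  · rw [if_pos h]
    exact (prod_eq_one fun l _ => by rw [if_pos (h l)]).symm
  · rw [if_neg h]
    push Not at h
    obtain ⟨l, hl⟩ := h
    exact (prod_eq_zero (mem_univ l) (by rw [if_neg hl])).symm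

/-- The rational points and the primitive points. -/
theorem card_pts (hU : Inv U) (hU0 : ∀ P, U P → ∀ i, P i ≠ 0) (hr : ∀ l, 2 ≤ r l) (B : ℝ) :
    ({x : Pts ℚ n | U (fun i => (x i).rep) ∧ ∏ i, (x i).mulHeight ^ r i ≤ B}.ncard) *
      2 ^ Fintype.card ι = (PP U r B).card := by
  classical
  have hex : ∀ (x : Pts ℚ n) (i : ι), ∃ y : Fin (n i + 1) → ℤ, cont y = 1 ∧
      ∃ t : ℚ, t ≠ 0 ∧ zq y = t • (x i).rep := fun x i => exists_prim _ (x i).rep_nonzero
  choose p hp1 t ht0 hpt using hex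
  have hht : ∀ x i, (x i).mulHeight = nm (p x i) := by
    intro x i
    rw [← height_eq (hp1 x i), hpt, Height.mulHeight_smul_eq_mulHeight _ (ht0 x i)]
    conv_lhs => rw [← (x i).mk_rep]
    rw [Projectivization.mulHeight_mk]
  have hp0 : ∀ x i, zq (p x i) ≠ 0 := by
    intro x i
    rw [hpt]
    exact smul_ne_zero (ht0 x i) (x i).rep_nonzero
  have hUp : ∀ x : Pts ℚ n, U (emb (p x)) ↔ U fun i => (x i).rep := by
    intro x
    constructor
    · intro h
      have h1 := hU (fun i => (t x i)⁻¹) (fun i => inv_ne_zero (ht0 x i)) _ h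
      convert h1 using 1
      funext i
      simp only [emb]
      rw [hpt, smul_smul, inv_mul_cancel₀ (ht0 x i), one_smul]
    · intro h
      have h1 := hU (fun i => t x i) (ht0 x) _ h
      convert h1 using 1
      funext i
      simp only [emb]
      rw [hpt]
  set ψ : Pts ℚ n × (ι → ℤˣ) → ZT n := fun z i a => ((z.2 i : ℤˣ) : ℤ) * p z.1 i a with hψ
  have hzψ : ∀ z i, zq (ψ z i) = (((z.2 i : ℤˣ) : ℤ) : ℚ) • zq (p z.1 i) := by
    intro z i
    funext a
    simp only [hψ, zq, Pi.smul_apply, smul_eq_mul]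
    push_cast
    rfl
  have hεne : ∀ ε : ℤˣ, ((ε : ℤ) : ℚ) ≠ 0 := by
    intro ε
    exact_mod_cast ε.ne_zero
  have hinj : Injective ψ := by
    rintro ⟨x, ε⟩ ⟨x', ε'⟩ h
    have h1 : ∀ i, ((ε i : ℤ) : ℚ) • zq (p x i) = ((ε' i : ℤ) : ℚ) • zq (p x' i) := by
      intro i
      have h2 := congrArg zq (congrFun h i)
      rw [hzψ, hzψ] at h2
      exact h2
    have hx : x = x' := by
      funext i
      have h2 := h1 i
      rw [hpt, hpt, smul_smul, smul_smul] at h2
      rw [← (x i).mk_rep, ← (x' i).mk_rep, Projectivization.mk_eq_mk_iff']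
      refine ⟨(((ε i : ℤ) : ℚ) * t x i)⁻¹ * (((ε' i : ℤ) : ℚ) * t x' i), ?_⟩
      rw [mul_smul, ← h2, smul_smul, inv_mul_cancel₀ (mul_ne_zero (hεne _) (ht0 x i)), one_smul]
    subst hx
    have hε : ε = ε' := by
      funext i
      have h2 := h1 i
      have h3 : (((ε i : ℤ) : ℚ) - ((ε' i : ℤ) : ℚ)) • zq (p x i) = 0 := by
        rw [sub_smul, h2, sub_self]
      have h4 := (smul_eq_zero.mp h3).resolve_right (hp0 x i)
      have h5 : ((ε i : ℤ) : ℚ) = ((ε' i : ℤ) : ℚ) := by linarith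
      have h6 : ((ε i : ℤˣ) : ℤ) = ((ε' i : ℤˣ) : ℤ) := by exact_mod_cast h5
      exact Units.ext h6
    rw [hε]
  set A : Set (Pts ℚ n) := {x : Pts ℚ n | U (fun i => (x i).rep) ∧
    ∏ i, (x i).mulHeight ^ r i ≤ B} with hA
  have hnat : ∀ ε : ℤˣ, (ε : ℤ).natAbs = 1 := fun ε => Int.units_natAbs ε
  have himg : ψ '' (A ×ˢ Set.univ) = ((PP U r B : Finset (ZT n)) : Set (ZT n)) := by
    ext P
    rw [mem_coe]
    unfold PP
    rw [mem_filter, mem_FB hU0 hr]
    constructor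
    · rintro ⟨⟨x, ε⟩, ⟨hx, -⟩, rfl⟩
      obtain ⟨h1, h2⟩ : U (fun i => (x i).rep) ∧ ∏ i, (x i).mulHeight ^ r i ≤ B := hx
      refine ⟨⟨?_, ?_⟩, fun l => ?_⟩
      · exact (V_smul hU (fun i => (ε i : ℤ)) (fun i => (ε i).ne_zero) (p x)).mpr ((hUp x).mpr h1)
      · have h3 : wt r (ψ (x, ε)) = ∏ i, (x i).mulHeight ^ r i := by
          have h4 := wt_smul (r := r) (fun i => (ε i : ℤ)) (p x)
          refine h4.trans ?_
          simp only [hnat, Nat.cast_one, one_pow, prod_const_one, one_mul]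
          unfold wt
          exact prod_congr rfl fun i _ => by rw [hht]
        rw [h3]
        exact h2
      · have h4 := cont_smul ((ε l : ℤˣ) : ℤ) (p x l)
        refine h4.trans ?_
        rw [hnat, hp1]
    · rintro ⟨⟨h1, h2⟩, h3⟩
      have hP0 : ∀ l, zq (P l) ≠ 0 := fun l => hU0 _ h1 l
      set x : Pts ℚ n := fun l => Projectivization.mk ℚ (zq (P l)) (hP0 l) with hx
      have h4 : ∀ l, ∃ ε : ℤˣ, ∀ a, P l a = (ε : ℤ) * p x l a := by
        intro l
        obtain ⟨c, hc⟩ := Projectivization.exists_smul_eq_mk_rep ℚ (zq (P l)) (hP0 l)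
        have h5 : zq (p x l) = (t x l * (c : ℚ)) • zq (P l) := by
          rw [hpt, mul_smul]
          congr 1
          rw [hx]
          simp only
          rw [← hc]
          rfl
        rcases prim_unique (hp1 x l) (h3 l) _ h5 with h6 | h6
        · refine ⟨1, fun a => ?_⟩
          rw [h6, one_smul] at h5
          rw [zq_inj h5]
          simp
        · refine ⟨-1, fun a => ?_⟩
          rw [h6] at h5
          have h7 := congrFun h5 a
          simp only [zq, Pi.smul_apply, smul_eq_mul] at h7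
          have h8 : p x l a = -1 * P l a := by exact_mod_cast h7
          rw [h8]
          simp
      choose ε hε using h4
      have h5 : P = ψ (x, ε) := by
        funext l a
        exact hε l a
      refine ⟨(x, ε), ⟨?_, Set.mem_univ _⟩, h5.symm⟩
      have h6 : U (emb (p x)) := by
        rw [h5] at h1
        exact (V_smul hU (fun i => (ε i : ℤ)) (fun i => (ε i).ne_zero) (p x)).mp h1
      refine ⟨(hUp x).mp h6, ?_⟩
      have h7 : wt r P = ∏ i, (x i).mulHeight ^ r i := by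
        rw [h5]
        have h4 := wt_smul (r := r) (fun i => (ε i : ℤ)) (p x)
        refine h4.trans ?_
        simp only [hnat, Nat.cast_one, one_pow, prod_const_one, one_mul]
        unfold wt
        exact prod_congr rfl fun i _ => by rw [hht]
      rw [← h7]
      exact h2
  have h1 : (ψ '' (A ×ˢ Set.univ)).ncard = A.ncard * 2 ^ Fintype.card ι := by
    rw [Set.ncard_image_of_injective _ hinj, Set.ncard_prod, Set.ncard_univ,
      Nat.card_eq_fintype_card, Fintype.card_fun, Fintype.card_units_int]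
  rw [← h1, himg, Set.ncard_coe_finset]

end Pool.Agent.Q38.EO
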